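import Mathlib

/-!
# Counting points of a shifted lattice
-/

set_option autoImplicit false

open Filter Topology Bornology MeasureTheory Module

namespace Pool.Agent.TH938.ML

section cross

variable {E : Type*} [NormedAddCommGroup E] [NormedSpace ℝ E]

/-- a segment from a point of `s` to a point outside meets the frontier -/
lemma cross {s : Set E} {x y : E} (hx : x ∈ s) (hy : y ∉ s) :
    ∃ z ∈ segment ℝ x y, z ∈ frontier s := by
  by_contra hcon
  push Not at hcon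
  have hpre : IsPreconnected (segment ℝ x y) := (convex_segment x y).isPreconnected
  have hsub : segment ℝ x y ⊆ interior s ∪ (closure s)ᶜ := by
    intro z hz
    by_cases h : z ∈ interior s
    · exact Or.inl h
    · refine Or.inr fun h2 => hcon z hz ⟨h2, h⟩
  have hdis : Disjoint (interior s) (closure s)ᶜ := by
    rw [Set.disjoint_left]
    intro z hz hz2
    exact hz2 (subset_closure (interior_subset hz))
  have hx' : x ∈ interior s := by
    rcases hsub (left_mem_segment ℝ x y) with h | h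
    · exact h
    · exact absurd (subset_closure hx) h
  have h1 := hpre.subset_left_of_subset_union isOpen_interior isClosed_closure.isOpen_compl hdis
    hsub ⟨x, left_mem_segment ℝ x y, hx'⟩
  exact hy (interior_subset (h1 (right_mem_segment ℝ x y)))

lemma mem_thick {s : Set E} {x y : E} {δ : ℝ} (hx : x ∈ s) (hy : y ∉ s) (hd : dist x y < δ) :
    x ∈ Metric.thickening δ (frontier s) ∧ y ∈ Metric.thickening δ (frontier s) := by
  obtain ⟨z, hz, hzf⟩ := cross hx hy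
  have h1 : z ∈ Metric.closedBall x (dist x y) :=
    (convex_closedBall x (dist x y)).segment_subset (Metric.mem_closedBall_self dist_nonneg)
      (by rw [Metric.mem_closedBall, dist_comm]) hz
  have h2 : z ∈ Metric.closedBall y (dist x y) :=
    (convex_closedBall y (dist x y)).segment_subset (by rw [Metric.mem_closedBall])
      (Metric.mem_closedBall_self dist_nonneg) hz
  rw [Metric.mem_closedBall, dist_comm] at h1 h2
  exact ⟨Metric.mem_thickening_iff.mpr ⟨z, hzf, h1.trans_lt hd⟩,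
    Metric.mem_thickening_iff.mpr ⟨z, hzf, h2.trans_lt hd⟩⟩

end cross

variable {E : Type*} [NormedAddCommGroup E] [InnerProductSpace ℝ E] [FiniteDimensional ℝ E]
  [MeasurableSpace E] [BorelSpace E]

/-- the points `x` of `s` with `n x ∈ v + L` -/
def Pts (L : Submodule ℤ E) (s : Set E) (v : E) (n : ℕ) : Set E :=
  {x | x ∈ s ∧ (n : ℝ) • x - v ∈ L}

variable (L : Submodule ℤ E) [DiscreteTopology L] [IsZLattice ℝ L]

omit [MeasurableSpace E] [BorelSpace E] [IsZLattice ℝ L] in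
lemma pts_finite {s : Set E} (hb : IsBounded s) (v : E) {n : ℕ} (hn : 0 < n) :
    (Pts L s v n).Finite := by
  have hn' : (n : ℝ) ≠ 0 := by exact_mod_cast hn.ne'
  have hcl : IsClosed (L : Set E) := by
    have : DiscreteTopology L.toAddSubgroup := ‹DiscreteTopology L›
    exact AddSubgroup.isClosed_of_discrete (H := L.toAddSubgroup)
  have hbd : IsBounded ((fun x => (n : ℝ) • x - v) '' s) := by
    rw [isBounded_iff_forall_norm_le] at hb ⊢
    obtain ⟨C, hC⟩ := hb
    refine ⟨n * C + ‖v‖, ?_⟩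
    rintro _ ⟨x, hx, rfl⟩
    refine (norm_sub_le _ _).trans ?_
    rw [norm_smul, Real.norm_natCast]
    have := hC x hx
    gcongr
  have hfin : (((fun x => (n : ℝ) • x - v) '' s) ∩ (L : Set E)).Finite :=
    Metric.finite_isBounded_inter_isClosed (isDiscrete_iff_discreteTopology.mpr ‹_›) hbd hcl
  refine Set.Finite.of_finite_image (f := fun x => (n : ℝ) • x - v) (hfin.subset ?_) ?_
  · rintro _ ⟨x, hx, rfl⟩
    exact ⟨⟨x, hx.1, rfl⟩, hx.2⟩
  · intro x _ y _ h
    have h1 : (n : ℝ) • x = (n : ℝ) • y := by simpa using h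
    exact smul_right_injective E hn' h1

omit [IsZLattice ℝ L] [MeasurableSpace E] [BorelSpace E] in
lemma pts_compare {s : Set E} (hb : IsBounded s) (v : E) {δ : ℝ}
    {n : ℕ} (hn : 0 < n) (hvn : ‖v‖ / n < δ) :
    |((Pts L s v n).ncard : ℝ) - (Pts L s 0 n).ncard| ≤
      (Pts L (Metric.thickening δ (frontier s)) 0 n).ncard := by
  have hn' : (n : ℝ) ≠ 0 := by exact_mod_cast hn.ne'
  set T := Metric.thickening δ (frontier s) with hT
  have hbT : IsBounded T := (hb.closure.subset frontier_subset_closure).thickening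
  have hfS := pts_finite L hb 0 hn
  have hfV := pts_finite L hb v hn
  have hfT := pts_finite L hbT 0 hn
  have hdist : ∀ x : E, dist x (x - (n : ℝ)⁻¹ • v) < δ := by
    intro x
    rw [dist_eq_norm, sub_sub_cancel, norm_smul, norm_inv, Real.norm_natCast, inv_mul_eq_div]
    exact hvn
  have hL : ∀ x : E, (n : ℝ) • (x - (n : ℝ)⁻¹ • v) - 0 = (n : ℝ) • x - v := by
    intro x
    rw [sub_zero, smul_sub, smul_inv_smul₀ hn']
  have hinj : Function.Injective fun x : E => x - (n : ℝ)⁻¹ • v := fun x y h => by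
    simpa using h
  have h1 : (Pts L s v n).ncard ≤ (Pts L s 0 n).ncard + (Pts L T 0 n).ncard := by
    rw [← Set.ncard_image_of_injective (Pts L s v n) hinj]
    refine (Set.ncard_le_ncard ?_ (hfS.union hfT)).trans (Set.ncard_union_le _ _)
    rintro _ ⟨x, hx, rfl⟩
    have h2 : (n : ℝ) • (x - (n : ℝ)⁻¹ • v) - 0 ∈ L := by rw [hL]; exact hx.2
    by_cases h3 : x - (n : ℝ)⁻¹ • v ∈ s
    · exact Or.inl ⟨h3, h2⟩
    · exact Or.inr ⟨(mem_thick hx.1 h3 (hdist x)).2, h2⟩
  have h2 : (Pts L s 0 n).ncard ≤ (Pts L s v n).ncard + (Pts L T 0 n).ncard := by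
    rw [← Set.ncard_image_of_injective (Pts L s v n) hinj]
    refine (Set.ncard_le_ncard ?_ ((hfV.image _).union hfT)).trans (Set.ncard_union_le _ _)
    intro y hy
    by_cases h3 : y + (n : ℝ)⁻¹ • v ∈ s
    · refine Or.inl ⟨y + (n : ℝ)⁻¹ • v, ⟨h3, ?_⟩, by simp⟩
      have := hL (y + (n : ℝ)⁻¹ • v)
      rw [add_sub_cancel_right] at this
      rw [← this]
      exact hy.2
    · refine Or.inr ⟨?_, hy.2⟩
      have h4 := hdist (y + (n : ℝ)⁻¹ • v)
      rw [add_sub_cancel_right, dist_comm] at h4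
      exact (mem_thick hy.1 h3 h4).1
  have h1' : ((Pts L s v n).ncard : ℝ) ≤ (Pts L s 0 n).ncard + (Pts L T 0 n).ncard := by
    exact_mod_cast h1
  have h2' : ((Pts L s 0 n).ncard : ℝ) ≤ (Pts L s v n).ncard + (Pts L T 0 n).ncard := by
    exact_mod_cast h2
  rw [abs_le]
  constructor <;> linarith

lemma pts_zero {s : Set E} (hb : IsBounded s) (hm : MeasurableSet s)
    (h0 : volume (frontier s) = 0) :
    Tendsto (fun n : ℕ => ((Pts L s 0 n).ncard : ℝ) / n ^ finrank ℝ E) atTop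
      (𝓝 (volume.real s / ZLattice.covolume L)) := by
  refine (ZLattice.covolume.tendsto_card_div_pow' L hb hm h0).congr' ?_
  filter_upwards [eventually_gt_atTop 0] with n hn
  have hn' : (n : ℝ) ≠ 0 := by exact_mod_cast hn.ne'
  congr 2
  rw [Nat.card_coe_set_eq]
  congr 1
  ext x
  rw [Set.mem_inter_iff, Set.mem_inv_smul_set_iff₀ hn']
  unfold Pts
  simp

/-- points of a shifted lattice -/
theorem pts_shift {s : Set E} (hb : IsBounded s) (hm : MeasurableSet s)
    (h0 : volume (frontier s) = 0) (v : E) :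
    Tendsto (fun n : ℕ => ((Pts L s v n).ncard : ℝ) / n ^ finrank ℝ E) atTop
      (𝓝 (volume.real s / ZLattice.covolume L)) := by
  have hc := ZLattice.covolume_pos L volume
  have hbf : IsBounded (frontier s) := hb.closure.subset frontier_subset_closure
  rw [Metric.tendsto_atTop]
  intro ε hε
  -- a thin neighbourhood of the frontier
  obtain ⟨δ, hδ0, hδ, hδf⟩ : ∃ δ : ℝ, 0 < δ ∧
      volume.real (Metric.thickening δ (frontier s)) / ZLattice.covolume L < ε / 3 ∧
      volume (frontier (Metric.thickening δ (frontier s))) = 0 := by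
    have h1 : Tendsto (fun r => volume (Metric.thickening r (frontier s))) (𝓝[>] 0)
        (𝓝 (volume (frontier s))) :=
      tendsto_measure_thickening_of_isClosed
        ⟨1, one_pos, (hbf.thickening (δ := 1)).measure_lt_top.ne⟩ isClosed_frontier
    rw [h0] at h1
    have h2 : (0 : ENNReal) < ENNReal.ofReal (ε / 3 * ZLattice.covolume L) := by
      rw [ENNReal.ofReal_pos]; positivity
    have h3 := h1.eventually (gt_mem_nhds h2)
    rw [eventually_nhdsWithin_iff, Metric.eventually_nhds_iff] at h3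
    obtain ⟨r, hr, h3⟩ := h3
    obtain ⟨δ, ⟨hδ1, hδ2⟩, hδf⟩ := exists_null_frontier_thickening volume (frontier s) hr
    refine ⟨δ, hδ1, ?_, hδf⟩
    have h4 := h3 (y := δ) (by rw [Real.dist_eq, sub_zero, abs_of_pos hδ1]; exact hδ2) hδ1
    rw [div_lt_iff₀ hc, measureReal_def]
    exact (ENNReal.lt_ofReal_iff_toReal_lt (lt_top_iff_ne_top.mp (h4.trans_le le_top))).mp h4
  set T := Metric.thickening δ (frontier s) with hT
  have hS := pts_zero L hb hm h0
  have hTl := pts_zero L hbf.thickening Metric.isOpen_thickening.measurableSet hδf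
  rw [Metric.tendsto_atTop] at hS hTl
  obtain ⟨N₁, hN₁⟩ := hS (ε / 3) (by positivity)
  obtain ⟨N₂, hN₂⟩ := hTl (ε / 3) (by positivity)
  obtain ⟨N₃, hN₃⟩ := exists_nat_gt (‖v‖ / δ)
  refine ⟨max (max N₁ N₂) (max N₃ 1), fun n hn => ?_⟩
  have hn1 : N₁ ≤ n := (le_max_left _ _).trans ((le_max_left _ _).trans hn)
  have hn2 : N₂ ≤ n := (le_max_right _ _).trans ((le_max_left _ _).trans hn)
  have hn3 : N₃ ≤ n := (le_max_left _ _).trans ((le_max_right _ _).trans hn)
  have hn4 : 0 < n := (le_max_right _ _).trans ((le_max_right _ _).trans hn)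
  have hn0 : (0 : ℝ) < n := by exact_mod_cast hn4
  have h1 := hN₁ n hn1
  have h2 := hN₂ n hn2
  have h3 : ‖v‖ / n < δ := by
    have : (N₃ : ℝ) ≤ n := by exact_mod_cast hn3
    rw [div_lt_iff₀ hn0]
    rw [div_lt_iff₀ hδ0] at hN₃
    nlinarith
  have h4 := pts_compare L hb v hn4 h3
  rw [Real.dist_eq] at h1 h2 ⊢
  have hp : (0 : ℝ) < n ^ finrank ℝ E := by positivity
  have h5 : |((Pts L s v n).ncard : ℝ) / n ^ finrank ℝ E -
      (Pts L s 0 n).ncard / n ^ finrank ℝ E| ≤ (Pts L T 0 n).ncard / n ^ finrank ℝ E := by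
    rw [← sub_div, abs_div, abs_of_pos hp]
    exact div_le_div_of_nonneg_right h4 hp.le
  have h6 := abs_lt.mp h1
  have h7 := abs_lt.mp h2
  have h8 := abs_le.mp h5
  rw [abs_lt]
  constructor <;> linarith [h6.1, h6.2, h7.1, h7.2, h8.1, h8.2]

/-- from powers to all reals -/
theorem squeeze {B : ℝ → ℝ} (hB : Monotone B) {D : ℕ} (hD : 0 < D) {V : ℝ}
    (h : Tendsto (fun n : ℕ => B ((n : ℝ) ^ D) / (n : ℝ) ^ D) atTop (𝓝 V)) :
    Tendsto (fun Z : ℝ => B Z / Z) atTop (𝓝 V) := by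
  have hroot : Tendsto (fun Z : ℝ => Z ^ (D : ℝ)⁻¹) atTop atTop :=
    tendsto_rpow_atTop (by positivity)
  have hD' : (D : ℝ) ≠ 0 := by exact_mod_cast hD.ne'
  have hfl : Tendsto (fun Z : ℝ => (⌊Z ^ (D : ℝ)⁻¹⌋₊ : ℝ) / Z ^ (D : ℝ)⁻¹) atTop (𝓝 1) :=
    tendsto_nat_floor_div_atTop.comp hroot
  have hce : Tendsto (fun Z : ℝ => (⌈Z ^ (D : ℝ)⁻¹⌉₊ : ℝ) / Z ^ (D : ℝ)⁻¹) atTop (𝓝 1) :=
    tendsto_nat_ceil_div_atTop.comp hroot
  have h1 : Tendsto (fun Z : ℝ => (B ((⌊Z ^ (D : ℝ)⁻¹⌋₊ : ℝ) ^ D) /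
      ((⌊Z ^ (D : ℝ)⁻¹⌋₊ : ℝ) ^ D)) * ((⌊Z ^ (D : ℝ)⁻¹⌋₊ : ℝ) / Z ^ (D : ℝ)⁻¹) ^ D) atTop
      (𝓝 (V * 1 ^ D)) :=
    ((h.comp tendsto_nat_floor_atTop).comp hroot).mul (hfl.pow D)
  have h2 : Tendsto (fun Z : ℝ => (B ((⌈Z ^ (D : ℝ)⁻¹⌉₊ : ℝ) ^ D) /
      ((⌈Z ^ (D : ℝ)⁻¹⌉₊ : ℝ) ^ D)) * ((⌈Z ^ (D : ℝ)⁻¹⌉₊ : ℝ) / Z ^ (D : ℝ)⁻¹) ^ D) atTop
      (𝓝 (V * 1 ^ D)) :=
    ((h.comp tendsto_nat_ceil_atTop).comp hroot).mul (hce.pow D)
  rw [one_pow, mul_one] at h1 h2
  have hev : ∀ᶠ Z : ℝ in atTop, 1 ≤ Z := eventually_ge_atTop 1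
  refine tendsto_of_tendsto_of_tendsto_of_le_of_le' h1 h2 ?_ ?_
  · filter_upwards [hev] with Z hZ
    have hZ0 : 0 < Z := by linarith
    have hr : 0 < Z ^ (D : ℝ)⁻¹ := Real.rpow_pos_of_pos hZ0 _
    have hrD : (Z ^ (D : ℝ)⁻¹) ^ D = Z := by
      rw [← Real.rpow_natCast, ← Real.rpow_mul hZ0.le, inv_mul_cancel₀ hD', Real.rpow_one]
    set m := ⌊Z ^ (D : ℝ)⁻¹⌋₊ with hm
    have hm0 : (0 : ℝ) < (m : ℝ) ^ D := by
      have : 1 ≤ m := by
        rw [hm, Nat.one_le_floor_iff]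
        exact Real.one_le_rpow hZ (by positivity)
      positivity
    rw [div_pow, hrD, div_mul_div_comm, mul_comm (B _), mul_div_mul_left _ _ hm0.ne']
    refine div_le_div_of_nonneg_right (hB ?_) hZ0.le
    rw [← hrD]
    exact pow_le_pow_left₀ (by positivity) (Nat.floor_le hr.le) D
  · filter_upwards [hev] with Z hZ
    have hZ0 : 0 < Z := by linarith
    have hr : 0 < Z ^ (D : ℝ)⁻¹ := Real.rpow_pos_of_pos hZ0 _
    have hrD : (Z ^ (D : ℝ)⁻¹) ^ D = Z := by
      rw [← Real.rpow_natCast, ← Real.rpow_mul hZ0.le, inv_mul_cancel₀ hD', Real.rpow_one]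
    set m := ⌈Z ^ (D : ℝ)⁻¹⌉₊ with hm
    have hm1 : Z ^ (D : ℝ)⁻¹ ≤ m := Nat.le_ceil _
    have hm0 : (0 : ℝ) < (m : ℝ) ^ D := by
      have : (0 : ℝ) < m := hr.trans_le hm1
      positivity
    rw [div_pow, hrD, div_mul_div_comm, mul_comm (B ((m : ℝ) ^ D)), mul_div_mul_left _ _ hm0.ne']
    refine div_le_div_of_nonneg_right (hB ?_) hZ0.le
    conv_lhs => rw [← hrD]
    exact pow_le_pow_left₀ hr.le hm1 D

end Pool.Agent.TH938.ML
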